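import Pool.Agent.R852.FP.Comb

set_option autoImplicit false
set_option linter.unusedSectionVars false
set_option linter.unusedVariables false

/-! # The roots for the forms over the polymatroidal ideals -/

namespace Pool.Agent.R852.FP

open MvPolynomial Pool.Agent.TH187.SA Pool.Agent.TH192.DT Pool.Agent.W574.SM Pool.Agent.W574.LM
  Pool.Agent.H628R4.TP

variable {σ S T I : Type} [Fintype σ] [DecidableEq σ] [Fintype S] [DecidableEq S] [Fintype T]
  [DecidableEq T] {κ : S → Type} [∀ s, Fintype (κ s)] [∀ s, DecidableEq (κ s)]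

theorem polyGen_ne (c : (s : S) → κ s → σ → ℂ) (hc : ∀ s, ∃ j, c s j ≠ 0) (U : Finset (S → ℕ))
    (hU : U.Nonempty) : ∃ q, polyGen c U q ≠ 0 := by
  obtain ⟨u, hu⟩ := hU
  obtain ⟨j, hj⟩ := arrGen_ne c hc u
  exact ⟨⟨⟨u, hu⟩, j⟩, hj⟩

/-- the sum over the factors -/
theorem sum_fac_min (U : T → Finset (S → ℕ)) (a : T → ℕ) (A : Finset S) :
    ∑ q : Σ t, Fin (a t), minOn A (U q.1) = ∑ t, a t * minOn A (U t) := by
  rw [Fintype.sum_sigma]
  refine Finset.sum_congr rfl fun t _ => ?_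
  simp only [Finset.sum_const, Finset.card_univ, Fintype.card_fin, smul_eq_mul]

/-- one of the subspaces over the flat is linked to itself -/
theorem exists_linked (c : (s : S) → κ s → σ → ℂ) (U : T → Finset (S → ℕ))
    (hU : ∀ t, (U t).Nonempty) (a : T → ℕ) (G : Submodule ℂ (σ → ℂ))
    (hN : 0 < ∑ t, a t * minOn (above c G) (U t)) :
    ∃ s, G ≤ zeros (c s) ∧ Linked U a (above c G) s s := by
  obtain ⟨t0, _, ht0⟩ := Finset.exists_ne_zero_of_sum_ne_zero (Nat.pos_iff_ne_zero.1 hN)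
  obtain ⟨u0, hu0, hmin0⟩ := exists_minOn (above c G) (U t0) (hU t0)
  have hpos0 := Nat.pos_of_ne_zero (right_ne_zero_of_mul ht0)
  obtain ⟨s0, hs0, hs0'⟩ : ∃ s ∈ above c G, 0 < u0 s := by
    by_contra h
    push Not at h
    have : ∑ s ∈ above c G, u0 s = 0 := Finset.sum_eq_zero fun s hs => Nat.le_zero.1 (h s hs)
    omega
  refine ⟨s0, (mem_above c G s0).1 hs0, t0, left_ne_zero_of_mul ht0, u0 - Pi.single s0 1,
    ?_, ?_, ?_, ?_⟩ <;> rw [sub_unit u0 s0 hs0']
  · exact hu0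
  · exact hu0
  · exact hmin0
  · exact hmin0

theorem isReesP_of_linked (c : (s : S) → κ s → σ → ℂ) (hc : ∀ s, ∃ j, c s j ≠ 0)
    (U : T → Finset (S → ℕ)) (hU : ∀ t, (U t).Nonempty) (a : T → ℕ)
    (G : Submodule ℂ (σ → ℂ)) (hG : IsFlat c G) (hL : IsLinked U a (above c G)) :
    IsReesP c U a G := by
  refine ⟨hG.1, fun hN => ?_⟩
  obtain ⟨s0, hs0, hLk0⟩ := exists_linked c U hU a G hN
  exact rees_of_linked c hc G hG (Linked U a (above c G)) s0 hs0 hLk0 hL

/-- **The flats for exponents of Veronese type are Rees flats.** -/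
theorem isReesP_flat (c : (s : S) → κ s → σ → ℂ) (hc : ∀ s, ∃ j, c s j ≠ 0)
    (U : T → Finset (S → ℕ)) (hU : ∀ t, (U t).Nonempty) (a : T → ℕ)
    (G : Submodule ℂ (σ → ℂ)) (hG : IsFlat c G)
    (h : (∀ t, a t ≠ 0 → IsVeronese (U t)) ∨ IsLinked U a (above c G)) : IsReesP c U a G := by
  by_cases hN : 0 < ∑ t, a t * minOn (above c G) (U t)
  · refine isReesP_of_linked c hc U hU a G hG ?_
    rcases h with h | h
    · exact isLinked_of_veronese U a h _ hN
    · exact h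
  · exact ⟨hG.1, fun h' => absurd h' hN⟩

/-- **The roots over the Rees flats.** -/
theorem ideal_roots (c : (s : S) → κ s → σ → ℂ)
    (U : T → Finset (S → ℕ)) (hU : ∀ t, (U t).Nonempty) (a : T → ℕ)
    (G : Submodule ℂ (σ → ℂ)) (hG : IsReesP c U a G) (b : Polynomial ℂ) (H0 : MvPolynomial σ ℂ)
    (hH0 : constantCoeff H0 ≠ 0)
    (hb : IsLocEq H0 (prodFam fun q : Σ t, Fin (a t) => polyGen c (U q.1)) b) (l : ℕ)
    (hl : l < ∑ t, a t * minOn (above c G) (U t)) :
    b.eval (-(((Fintype.card σ - Module.finrank ℂ G : ℕ) : ℂ) + l) /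
      (∑ t, a t * minOn (above c G) (U t) : ℕ)) = 0 := by
  classical
  have hN : 0 < ∑ t, a t * minOn (above c G) (U t) := by omega
  obtain ⟨s0, hs0, _⟩ := exists_linked c U hU a G hN
  obtain ⟨u, hu1, hR⟩ := hG.2 hN
  have hsum := sum_fac_min U a (above c G)
  rw [← hsum] at hl ⊢
  refine fp_core c _ _ b H0 hH0 hb G (Linked U a (above c G)) s0 hs0 u hu1 hR
    (fun D hD => ⟨?_, ?_⟩) l hl
  · exact hasOrd_prod D.z D.xi (fun q : Σ t, Fin (a t) => minOn (above c G) (U q.1))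
      (fun q => polyGen c (U q.1)) fun q => hD.hasOrd _ (hU q.1)
  · rintro i j ⟨t, hat, m, m1, m2, m3, m4⟩ hi hj c' hc' hz
    exact cov_prod D.z D.xi (fun q : Σ t, Fin (a t) => minOn (above c G) (U q.1))
      (fun q => polyGen c (U q.1)) (fun q => hD.hasOrd _ (hU q.1))
      ⟨t, ⟨0, Nat.pos_of_ne_zero hat⟩⟩ _ (hD.cov (U t) m i j hi hj m1 m2 m3 c' hc' hz)

theorem nu_pos (G : I → Submodule ℂ (σ → ℂ)) (hG : ∀ i, G i ≠ ⊤) (x : I ⊕ T) :
    0 < nuA G T x := by
  rcases x with i | t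
  · have h2 := Submodule.finrank_lt (hG i)
    rw [Module.finrank_fintype_fun_eq_card] at h2
    change 0 < Fintype.card σ - Module.finrank ℂ (G i)
    omega
  · exact one_pos

/-- **The roots for the products of powers of forms.** -/
theorem pow_roots (c : (s : S) → κ s → σ → ℂ)
    (U : T → Finset (S → ℕ)) (hU : ∀ t, (U t).Nonempty) (a : T → ℕ)
    (G : I → Submodule ℂ (σ → ℂ)) (hG : ∀ i, IsReesP c U a (G i)) (b : Polynomial ℂ)
    (hb : PowData a (fun t => polyGen c (U t)) b) (x : I ⊕ T) (l : ℕ)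
    (hl : l < mulP c U a G x) :
    b.eval (-((nuA G T x : ℂ) + l) / mulP c U a G x) = 0 := by
  rcases x with i | t
  · obtain ⟨t0, _, ht0⟩ := Finset.exists_ne_zero_of_sum_ne_zero
      (by have : l < ∑ t, a t * minOn (above c (G i)) (U t) := hl
          omega : ∑ t, a t * minOn (above c (G i)) (U t) ≠ 0)
    obtain ⟨H, hH, hHb⟩ := hb.ideal ⟨t0, left_ne_zero_of_mul ht0⟩
    exact ideal_roots c U hU a (G i) (hG i) b H hH hHb l hl
  · have h3 := hb.strict t l hl
    change b.eval (-(((1 : ℕ) : ℂ) + l) / a t) = 0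
    rw [Nat.cast_one]
    exact h3

end Pool.Agent.R852.FP
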