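import Pool.Agent.R852.FP.Defs

set_option autoImplicit false
set_option linter.unusedSectionVars false
set_option linter.unusedVariables false

/-! # The roots from the linked flats -/

namespace Pool.Agent.R852.FP

open MvPowerSeries Pool.Agent.TH187.SA Pool.Agent.TH192.DT Pool.Agent.W574.SM Pool.Agent.W574.LM

section comb

variable {S : Type}

theorem minOn_le (A : Finset S) (U : Finset (S → ℕ)) {u : S → ℕ} (hu : u ∈ U) :
    minOn A U ≤ ∑ s ∈ A, u s := Nat.sInf_le ⟨u, hu, rfl⟩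

theorem exists_minOn (A : Finset S) (U : Finset (S → ℕ)) (hU : U.Nonempty) :
    ∃ u ∈ U, ∑ s ∈ A, u s = minOn A U := by
  obtain ⟨u0, hu0⟩ := hU
  obtain ⟨u, hu, h⟩ := Nat.sInf_mem (s := {n | ∃ u ∈ U, n = ∑ s ∈ A, u s}) ⟨_, u0, hu0, rfl⟩
  exact ⟨u, hu, h.symm⟩

end comb

variable {σ : Type} [Fintype σ] [DecidableEq σ] {S : Type} [Fintype S] [DecidableEq S]
  {κ : S → Type} [∀ s, Fintype (κ s)]

theorem mem_above (c : (s : S) → κ s → σ → ℂ) (G : Submodule ℂ (σ → ℂ)) (s : S) :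
    s ∈ above c G ↔ G ≤ zeros (c s) := by
  classical
  simp [above]

theorem mult_above (c : (s : S) → κ s → σ → ℂ) (G : Submodule ℂ (σ → ℂ)) (u : S → ℕ) :
    mult (fun s => zeros (c s)) u G = ∑ s ∈ above c G, u s := by
  classical
  unfold mult above
  rw [Finset.sum_filter]

/-- The conditions on a chart at a general point of the divisor over `G`. -/
structure Good (c : (s : S) → κ s → σ → ℂ) (G : Submodule ℂ (σ → ℂ)) (D : Lc σ) : Prop where
  g : ∀ s, G ≤ zeros (c s) → ∀ j, c s j ⬝ᵥ D.g = 0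
  T : ∀ s, G ≤ zeros (c s) → ∀ j, ∀ i ∈ D.T, c s j ⬝ᵥ D.v i = 0
  z : ∀ s, G ≤ zeros (c s) → ∃ j, c s j ⬝ᵥ D.v D.z ≠ 0
  n : ∀ s, ¬ G ≤ zeros (c s) → ∃ j, c s j ⬝ᵥ D.g ≠ 0

variable {c : (s : S) → κ s → σ → ℂ} {G : Submodule ℂ (σ → ℂ)} {D : Lc σ}

theorem Good.ord (h : Good c G D) [∀ s, Decidable (G ≤ zeros (c s))] (s : S) :
    HasOrd D.z D.xi (if G ≤ zeros (c s) then 1 else 0) fun j => lin (c s j) := by
  by_cases hs : G ≤ zeros (c s)
  · rw [if_pos hs]
    obtain ⟨j1, hj1⟩ := h.z s hs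
    exact D.hasOrd_one (c s) (h.g s hs) (h.T s hs) j1 hj1
  · rw [if_neg hs]
    obtain ⟨j1, hj1⟩ := h.n s hs
    exact D.hasOrd_zero (c s) j1 hj1

theorem polyGen_eq (U : Finset (S → ℕ)) (u : U) (j : (p : Σ s, Fin (u.1 s)) → κ p.1) :
    polyGen c U ⟨u, j⟩ = arrGen c u.1 j := rfl

theorem span_arrGen (U : Finset (S → ℕ)) (u : S → ℕ) (hu : u ∈ U) :
    Submodule.span ℂ (Set.range (arrGen c u)) ≤ Submodule.span ℂ (Set.range (polyGen c U)) := by
  refine Submodule.span_mono ?_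
  rintro _ ⟨j, rfl⟩
  exact ⟨⟨⟨u, hu⟩, j⟩, rfl⟩

/-- the order of the generators -/
theorem Good.hasOrd (h : Good c G D) (U : Finset (S → ℕ)) (hU : U.Nonempty) :
    HasOrd D.z D.xi (minOn (above c G) U) (polyGen c U) := by
  classical
  have key : ∀ u : S → ℕ, HasOrd D.z D.xi (∑ s ∈ above c G, u s) (arrGen c u) := by
    intro u
    rw [← mult_above]
    exact (prodLike_arrGen c u (fun _ => True) (fun _ _ => trivial) G D
      (fun s _ => h.ord s)).1
  constructor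
  · rintro ⟨u, j⟩
    exact (pow_dvd_pow _ (minOn_le _ U u.2)).trans ((key u.1).1 j)
  · obtain ⟨u, hu, hmin⟩ := exists_minOn (above c G) U hU
    rw [← hmin]
    obtain ⟨F, hF, V, hV, hFV⟩ := (key u).2
    exact ⟨F, span_arrGen U u hu hF, V, hV, hFV⟩

theorem sum_unit (A : Finset S) (m : S → ℕ) (i : S) (hi : i ∈ A) :
    ∑ s ∈ A, (m + Pi.single i 1 : S → ℕ) s = (∑ s ∈ A, m s) + 1 := by
  simp only [Pi.add_apply]
  rw [Finset.sum_add_distrib]
  congr 1
  simp [Pi.single_apply, hi]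

theorem fin_prod {R : Type} [CommRing R] (x y : R) (n N : ℕ) (h : N = n + 1) :
    ∏ k : Fin N, (if (k : ℕ) = n then y else x) = x ^ n * y := by
  subst h
  rw [Fin.prod_univ_castSucc]
  simp only [Fin.val_castSucc, Fin.val_last, if_true]
  congr 1
  rw [Finset.prod_congr rfl fun (k : Fin n) _ => if_neg (ne_of_lt k.2), Finset.prod_const,
    Finset.card_univ, Fintype.card_fin]

/-- the products with one further factor -/
theorem prod_mem (g : S → MvPolynomial σ ℂ)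
    (hg : ∀ s, g s ∈ Submodule.span ℂ (Set.range fun j => lin (c s j))) (m : S → ℕ) (i : S)
    (ℓ : MvPolynomial σ ℂ) (hℓ : ℓ ∈ Submodule.span ℂ (Set.range fun j => lin (c i j))) :
    (∏ s, g s ^ m s) * ℓ ∈
      Submodule.span ℂ (Set.range (arrGen c (m + Pi.single i 1 : S → ℕ))) := by
  classical
  have h1 : ∏ p : (Σ s, Fin ((m + Pi.single i 1 : S → ℕ) s)),
      (if p.1 = i ∧ (p.2 : ℕ) = m i then ℓ else g p.1) = (∏ s, g s ^ m s) * ℓ := by
    rw [Fintype.prod_sigma]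
    have h2 : ∀ s, ∏ k : Fin ((m + Pi.single i 1 : S → ℕ) s),
        (if s = i ∧ (k : ℕ) = m i then ℓ else g s) = g s ^ m s * (if s = i then ℓ else 1) := by
      intro s
      by_cases hs : s = i
      · subst hs
        rw [if_pos rfl]
        rw [← fin_prod (g s) ℓ (m s) ((m + Pi.single s 1 : S → ℕ) s)
          (by rw [Pi.add_apply, Pi.single_eq_same])]
        refine Finset.prod_congr rfl fun k _ => ?_
        simp only [true_and]
      · rw [if_neg hs, mul_one]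
        rw [Finset.prod_congr rfl fun k _ => if_neg fun h => hs h.1, Finset.prod_const,
          Finset.card_univ, Fintype.card_fin, Pi.add_apply, Pi.single_eq_of_ne hs, add_zero]
    rw [Finset.prod_congr rfl fun s _ => h2 s, Finset.prod_mul_distrib, Finset.prod_ite_eq',
      if_pos (Finset.mem_univ i)]
  rw [← h1]
  refine prod_mem_span (fun (p : Σ s, Fin ((m + Pi.single i 1 : S → ℕ) s)) (j : κ p.1) =>
    lin (c p.1 j)) _ fun p => ?_
  split_ifs with hp
  · have h3 : ∀ s : S, s = i → ℓ ∈ Submodule.span ℂ (Set.range fun j => lin (c s j)) := by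
      rintro s rfl
      exact hℓ
    exact h3 p.1 hp.1
  · exact hg p.1

theorem mem_of_sup (g : S → MvPolynomial σ ℂ)
    (hg : ∀ s, g s ∈ Submodule.span ℂ (Set.range fun j => lin (c s j))) (U : Finset (S → ℕ))
    (m : S → ℕ) (i j : S)
    (hi : (m + Pi.single i 1 : S → ℕ) ∈ U) (hj : (m + Pi.single j 1 : S → ℕ) ∈ U)
    (c' : σ → ℂ) (hc : c' ∈ Submodule.span ℂ (Set.range (c i)) ⊔
      Submodule.span ℂ (Set.range (c j))) :
    (∏ s, g s ^ m s) * lin c' ∈ Submodule.span ℂ (Set.range (polyGen c U)) := by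
  obtain ⟨c1, h1, c2, h2, rfl⟩ := Submodule.mem_sup.1 hc
  rw [lin_add, mul_add]
  exact Submodule.add_mem _
    (span_arrGen U _ hi (prod_mem g hg m i _ (lin_mem_span _ _ h1)))
    (span_arrGen U _ hj (prod_mem g hg m j _ (lin_mem_span _ _ h2)))

/-- **The covectors of two linked indices.** -/
theorem Good.cov (h : Good c G D) (U : Finset (S → ℕ)) (m : S → ℕ) (i j : S)
    (hiG : G ≤ zeros (c i)) (hjG : G ≤ zeros (c j))
    (hi : (m + Pi.single i 1 : S → ℕ) ∈ U) (hj : (m + Pi.single j 1 : S → ℕ) ∈ U)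
    (hmin : ∑ s ∈ above c G, (m + Pi.single i 1 : S → ℕ) s = minOn (above c G) U)
    (c' : σ → ℂ) (hc : c' ∈ Submodule.span ℂ (Set.range (c i)) ⊔
      Submodule.span ℂ (Set.range (c j))) (hz : c' ⬝ᵥ D.v D.z = 0) :
    Cov D.z D.xi (minOn (above c G) U) (polyGen c U) fun l => c' ⬝ᵥ D.v l := by
  classical
  have hord := h.ord
  choose h1 g hg V hV hgV using hord
  have h0 : ∀ x : σ → ℂ, (∀ k, c i k ⬝ᵥ x = 0) → (∀ k, c j k ⬝ᵥ x = 0) → c' ⬝ᵥ x = 0 := by
    intro x hx hx'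
    obtain ⟨c1, h1, c2, h2, rfl⟩ := Submodule.mem_sup.1 hc
    rw [add_dotProduct, dot_span _ _ h1 x hx, dot_span _ _ h2 x hx', add_zero]
  have hsum : minOn (above c G) U = (∑ s ∈ above c G, m s) + 1 := by
    rw [← hmin, sum_unit _ _ _ ((mem_above c G i).2 hiG)]
  have hu : constantCoeff (∏ s, V s ^ m s) ≠ 0 := by
    rw [map_prod]
    exact Finset.prod_ne_zero_iff.2 fun s _ => by rw [map_pow]; exact pow_ne_zero _ (hV s)
  have hprod : MvPolynomial.aeval D.xi (∏ s, g s ^ m s) =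
      X D.z ^ (∑ s ∈ above c G, m s) * ∏ s, V s ^ m s := by
    rw [map_prod]
    have h2 : ∀ s, MvPolynomial.aeval D.xi (g s ^ m s) =
        X D.z ^ (if G ≤ zeros (c s) then m s else 0) * V s ^ m s := by
      intro s
      rw [map_pow, hgV s, mul_pow, ← pow_mul]
      congr 2
      split_ifs
      · rw [one_mul]
      · rw [zero_mul]
    rw [Finset.prod_congr rfl fun s _ => h2 s, Finset.prod_mul_distrib,
      Finset.prod_pow_eq_pow_sum]
    congr 2
    unfold above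
    rw [Finset.sum_filter]
  have key : Cov D.z D.xi (minOn (above c G) U) (polyGen c U)
      (constantCoeff (∏ s, V s ^ m s) • fun l => c' ⬝ᵥ D.v l) := by
    refine ⟨(∏ s, g s ^ m s) * lin c', mem_of_sup g hg U m i j hi hj c' hc,
      (∏ s, V s ^ m s) * ∑ l ∈ Finset.univ.filter fun l => l ∉ D.T ∧ l ≠ D.z,
        MvPowerSeries.C (c' ⬝ᵥ D.v l) * X l, ?_, fun l hl => ?_, ?_⟩
    · rw [map_mul, Lc.cc_sum_X, mul_zero]
    · rw [coeff_single_mul l _ _ (Lc.cc_sum_X _ _),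
        D.coeff_sum_X (fun l => c' ⬝ᵥ D.v l) l hl fun l hl => h0 _ (fun k => h.T i hiG k l hl)
          (fun k => h.T j hjG k l hl), Pi.smul_apply, smul_eq_mul]
    · rw [map_mul, hprod, D.aeval_center _ (h0 _ (h.g i hiG) (h.g j hjG))
        fun l hl => h0 _ (fun k => h.T i hiG k l hl) (fun k => h.T j hjG k l hl), hz, map_zero,
        zero_add, hsum, pow_succ]
      ring
  have h3 := cov_smul (constantCoeff (∏ s, V s ^ m s))⁻¹ key
  rwa [smul_smul, inv_mul_cancel₀ hu, one_smul] at h3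

theorem top_not_le (c : (s : S) → κ s → σ → ℂ) (hc : ∀ s, ∃ j, c s j ≠ 0) (s : S) :
    ¬ (⊤ : Submodule ℂ (σ → ℂ)) ≤ zeros (c s) := by
  intro h
  obtain ⟨j, hj⟩ := hc s
  apply hj
  funext i
  have h1 : c s j ⬝ᵥ Pi.single i (1 : ℂ) = 0 := h (x := Pi.single i (1 : ℂ)) trivial j
  rwa [dotProduct_single, mul_one] at h1

/-- the roots from a Rees flat -/
theorem fp_core {ι : Type} [Fintype ι] (c : (s : S) → κ s → σ → ℂ)
    (F : ι → MvPolynomial σ ℂ) (N : ℕ) (b : Polynomial ℂ) (H0 : MvPolynomial σ ℂ)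
    (hH0 : MvPolynomial.constantCoeff H0 ≠ 0) (hb : IsLocEq H0 F b)
    (G : Submodule ℂ (σ → ℂ)) (Lk : S → S → Prop)
    (s0 : S) (hs0 : G ≤ zeros (c s0))
    (u : σ → ℂ) (hu1 : ∀ s, G ≤ zeros (c s) → u ∉ zeros (c s))
    (hR : ∀ x : σ → ℂ, (∀ i j, Lk i j → G ≤ zeros (c i) → G ≤ zeros (c j) →
        x ∈ (zeros (c i) ⊓ zeros (c j)) ⊔ Submodule.span ℂ {u}) → x ∈ G ⊔ Submodule.span ℂ {u})
    (hF : ∀ D : Lc σ, Good c G D → HasOrd D.z D.xi N F ∧
      ∀ i j, Lk i j → G ≤ zeros (c i) → G ≤ zeros (c j) → ∀ c' ∈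
        Submodule.span ℂ (Set.range (c i)) ⊔ Submodule.span ℂ (Set.range (c j)),
        c' ⬝ᵥ D.v D.z = 0 → Cov D.z D.xi N F fun l => c' ⬝ᵥ D.v l)
    (l : ℕ) (hl : l < N) :
    b.eval (-(((Fintype.card σ - Module.finrank ℂ G : ℕ) : ℂ) + l) / N) = 0 := by
  classical
  have huG : u ∉ G := fun h => hu1 s0 hs0 (hs0 h)
  obtain ⟨j0, hj0⟩ : ∃ j0, c s0 j0 ⬝ᵥ u ≠ 0 := by
    by_contra h
    push Not at h
    exact hu1 s0 hs0 h
  obtain ⟨v, z, T, hzT, hvz, hvT, hcoord, hcard⟩ := exists_adapted G u huG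
  obtain ⟨δ, hδ, hgen⟩ := exists_generic (fun s => zeros (c s)) G
  obtain ⟨lam, hlam, hH⟩ := exists_scale H0 hH0 δ
  have hgG : (fun t => lam * δ t) ∈ G := G.smul_mem lam hδ
  have hgn : ∀ s, ¬ G ≤ zeros (c s) → ∃ j, c s j ⬝ᵥ (fun t => lam * δ t) ≠ 0 := by
    intro s hs
    by_contra h
    push Not at h
    apply hgen s hs
    intro j
    have h1 := h j
    have h2 : c s j ⬝ᵥ (fun t => lam * δ t) = lam * (c s j ⬝ᵥ δ) := by
      rw [dotProduct, dotProduct, Finset.mul_sum]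
      refine Finset.sum_congr rfl fun i _ => ?_
      ring
    rw [h2] at h1
    exact (mul_eq_zero.1 h1).resolve_left hlam
  let D : Lc σ := ⟨Matrix.of fun i j => v i j, det_basis v, z, T, hzT, fun t => lam * δ t⟩
  have hDz : D.v D.z = u := hvz
  have hDT : ∀ s, G ≤ zeros (c s) → ∀ j, ∀ i ∈ D.T, c s j ⬝ᵥ D.v i = 0 :=
    fun s hs j i hi => hs (hvT i hi) j
  have hDg : ∀ s, G ≤ zeros (c s) → ∀ j, c s j ⬝ᵥ D.g = 0 := fun s hs j => hs hgG j
  have hgood : Good c G D := by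
    refine ⟨hDg, hDT, fun s hs => ?_, hgn⟩
    rw [hDz]
    by_contra h'
    push Not at h'
    exact hu1 s hs h'
  obtain ⟨hord, hcov⟩ := hF D hgood
  let W : Submodule ℂ (σ → ℂ) :=
    { carrier := {w | Cov D.z D.xi N F fun l => w ⬝ᵥ D.v l}
      add_mem' := by
        intro w w' hw hw'
        have h := cov_add hw hw'
        have h1 : (fun l => (w + w') ⬝ᵥ D.v l)
            = (fun l => w ⬝ᵥ D.v l) + fun l => w' ⬝ᵥ D.v l := by
          funext l
          rw [Pi.add_apply, add_dotProduct]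
        change Cov _ _ _ _ fun l => (w + w') ⬝ᵥ D.v l
        rw [h1]
        exact h
      zero_mem' := by
        have h1 : (fun l => (0 : σ → ℂ) ⬝ᵥ D.v l) = 0 := by
          funext l
          rw [zero_dotProduct, Pi.zero_apply]
        change Cov _ _ _ _ fun l => (0 : σ → ℂ) ⬝ᵥ D.v l
        rw [h1]
        exact cov_zero
      smul_mem' := by
        intro r w hw
        have h := cov_smul r hw
        have h1 : (fun l => (r • w) ⬝ᵥ D.v l) = r • fun l => w ⬝ᵥ D.v l := by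
          funext l
          rw [Pi.smul_apply, smul_dotProduct]
        change Cov _ _ _ _ fun l => (r • w) ⬝ᵥ D.v l
        rw [h1]
        exact h }
  let c2 : (p : S × S) → κ p.1 ⊕ κ p.2 → σ → ℂ := fun p => Sum.elim (c p.1) (c p.2)
  have hz2 : ∀ (p : S × S) (x : σ → ℂ), x ∈ zeros (c2 p) ↔
      x ∈ zeros (c p.1) ∧ x ∈ zeros (c p.2) := by
    intro p x
    constructor
    · intro h
      exact ⟨fun j => h (Sum.inl j), fun j => h (Sum.inr j)⟩
    · rintro ⟨h1, h2⟩ (j | j)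
      · exact h1 j
      · exact h2 j
  let A2 : S × S → Prop := fun p => Lk p.1 p.2
  have hle2 : ∀ p : S × S, G ≤ zeros (c2 p) ↔ G ≤ zeros (c p.1) ∧ G ≤ zeros (c p.2) := by
    intro p
    constructor
    · intro h
      exact ⟨fun x hx => ((hz2 p x).1 (h hx)).1, fun x hx => ((hz2 p x).1 (h hx)).2⟩
    · rintro ⟨h1, h2⟩ x hx
      exact (hz2 p x).2 ⟨h1 hx, h2 hx⟩
  have hW : ∀ p, A2 p → G ≤ zeros (c2 p) →
      ∀ c' ∈ Submodule.span ℂ (Set.range (c2 p)), c' ⬝ᵥ u = 0 → c' ∈ W := by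
    intro p hA hp c' hc' hcu
    refine hcov p.1 p.2 hA ((hle2 p).1 hp).1 ((hle2 p).1 hp).2 c' ?_ (by rw [hDz]; exact hcu)
    rw [← Submodule.span_union]
    have h1 : Set.range (c2 p) = Set.range (c p.1) ∪ Set.range (c p.2) := Set.Sum.elim_range _ _
    rwa [← h1]
  have hrees : ∀ x : σ → ℂ, (∀ p, A2 p → G ≤ zeros (c2 p) →
      x ∈ zeros (c2 p) ⊔ Submodule.span ℂ {u}) → x ∈ G ⊔ Submodule.span ℂ {u} := by
    intro x hx
    refine hR x fun i j hij hi hj => ?_
    obtain ⟨y, hy, w, hw, hyw⟩ := Submodule.mem_sup.1 (hx (i, j) hij ((hle2 (i, j)).2 ⟨hi, hj⟩))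
    exact Submodule.mem_sup.2 ⟨y, (hz2 (i, j) y).1 hy, w, hw, hyw⟩
  have hdual : ∀ t, t ∉ T → t ≠ z → (fun j => v.coord t (Pi.single j 1)) ∈ W := by
    intro t ht htz
    refine mem_of_rees c2 A2 G u (fun p _ hp hp' => hu1 p.1 ((hle2 p).1 hp).1
      ((hz2 p u).1 hp').1) hrees W hW _
      (fun x hx => ?_) ?_
    · rw [coord_row]
      exact hcoord x hx t ht
    · rw [← hvz, coord_basis, if_neg htz.symm]
  have hTc : T.card + 1 ≤ Fintype.card σ := by
    have h1 := Finset.card_le_univ (insert z T)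
    rwa [Finset.card_insert_of_notMem hzT] at h1
  obtain ⟨U0, hU0, hJ⟩ := D.jacobian
  have hxi0 : ∀ j, constantCoeff (D.xi j) = lam * δ j := D.cc_xi
  have hHc : constantCoeff (MvPolynomial.aeval D.xi H0) ≠ 0 := by
    rw [cc_aeval, funext hxi0]
    exact hH
  have key := rees_span _ b H0 hb D.z D.xi hHc (Fintype.card σ - 1 - D.T.card)
    N l hl U0
    ((MvPowerSeries.C (c s0 j0 ⬝ᵥ D.v D.z) + ∑ i ∈ Finset.univ.filter fun i => i ∉ D.T ∧ i ≠ D.z,
        MvPowerSeries.C (c s0 j0 ⬝ᵥ D.v i) * X i) ^ l) hU0 ?_ hJ hord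
    (lin (c s0 j0) ^ l) ?_ ?_
  · have h1 : ((Fintype.card σ - 1 - D.T.card : ℕ) : ℂ) + 1
        = ((Fintype.card σ - Module.finrank ℂ G : ℕ) : ℂ) := by
      rw [← hcard]
      have h2 : Fintype.card σ - 1 - D.T.card + 1 = Fintype.card σ - T.card := by
        change Fintype.card σ - 1 - T.card + 1 = Fintype.card σ - T.card
        omega
      rw [← h2]
      push_cast
      ring
    rw [← h1]
    exact key
  · rw [map_pow, map_add, constantCoeff_C, Lc.cc_sum_X, add_zero, hDz]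
    exact pow_ne_zero _ hj0
  · rw [map_pow, D.aeval_center _ (hDg s0 hs0 j0) (hDT s0 hs0 j0), mul_pow]
  · intro t htz
    by_cases ht : t ∈ T
    · left
      refine ⟨lin (fun j => v.coord t (Pi.single j 1)) -
        MvPolynomial.C ((fun j => v.coord t (Pi.single j 1)) ⬝ᵥ D.g), ?_⟩
      have h1 : (MvPolynomial.aeval D.xi) (MvPolynomial.C
          ((fun j => v.coord t (Pi.single j 1)) ⬝ᵥ D.g) : MvPolynomial σ ℂ)
          = MvPowerSeries.C ((fun j => v.coord t (Pi.single j 1)) ⬝ᵥ D.g) :=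
        MvPolynomial.aeval_C _ _
      have h2 : ∑ i, MvPowerSeries.C ((fun j => v.coord t (Pi.single j 1)) ⬝ᵥ D.v i) * D.eta i
          = D.eta t := by
        rw [Finset.sum_eq_single t]
        · have h3 : (fun j => v.coord t (Pi.single j 1)) ⬝ᵥ D.v t = 1 :=
            (coord_basis v t t).trans (if_pos rfl)
          rw [h3, map_one, one_mul]
        · intro i _ hi
          have h3 : (fun j => v.coord t (Pi.single j 1)) ⬝ᵥ D.v i = 0 :=
            (coord_basis v t i).trans (if_neg hi)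
          rw [h3, map_zero, zero_mul]
        · intro h
          exact absurd (Finset.mem_univ _) h
      rw [map_sub, D.aeval_lin, h1, h2, add_sub_cancel_left, D.eta_T ht]
      refine ⟨constantCoeff_X t, ?_, fun l _ hlt => ?_⟩
      · rw [coeff_X, if_pos rfl]
        exact one_ne_zero
      · rw [coeff_X, if_neg]
        intro h
        exact hlt (Finsupp.single_left_injective one_ne_zero h)
    · right
      have h1 := hdual t ht htz
      refine gives_of_cov (ℓ := fun l => (fun j => v.coord t (Pi.single j 1)) ⬝ᵥ D.v l) h1 t htz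
        ?_ ?_
      · have h3 : (fun j => v.coord t (Pi.single j 1)) ⬝ᵥ D.v t = 1 :=
          (coord_basis v t t).trans (if_pos rfl)
        rw [h3]
        exact one_ne_zero
      · intro l _ hlt
        exact (coord_basis v t l).trans (if_neg hlt)

/-- **The linked flats are Rees flats.** -/
theorem rees_of_linked (c : (s : S) → κ s → σ → ℂ) (hc : ∀ s, ∃ j, c s j ≠ 0)
    (G : Submodule ℂ (σ → ℂ)) (hG : IsFlat c G) (Lk : S → S → Prop)
    (s0 : S) (hs0 : G ≤ zeros (c s0)) (hLk0 : Lk s0 s0)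
    (hLk : ∀ B, B ⊆ above c G → B.Nonempty → B ≠ above c G →
      ∃ i ∈ B, ∃ j ∈ above c G \ B, Lk i j) :
    ∃ u : σ → ℂ, (∀ s, G ≤ zeros (c s) → u ∉ zeros (c s)) ∧
      ∀ x : σ → ℂ, (∀ i j, Lk i j → G ≤ zeros (c i) → G ≤ zeros (c j) →
        x ∈ (zeros (c i) ⊓ zeros (c j)) ⊔ Submodule.span ℂ {u}) →
          x ∈ G ⊔ Submodule.span ℂ {u} := by
  classical
  obtain ⟨u, _, hu'⟩ := exists_generic (fun s => zeros (c s)) ⊤
  have hu1 : ∀ s, u ∉ zeros (c s) := fun s => hu' s (top_not_le c hc s)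
  refine ⟨u, fun s _ => hu1 s, fun x hx => ?_⟩
  have hdec : ∀ i j, Lk i j → G ≤ zeros (c i) → G ≤ zeros (c j) →
      ∃ r : ℂ, x - r • u ∈ zeros (c i) ∧ x - r • u ∈ zeros (c j) := by
    intro i j hij hi hj
    obtain ⟨y, hy, w, hw, hyw⟩ := Submodule.mem_sup.1 (hx i j hij hi hj)
    obtain ⟨r, rfl⟩ := Submodule.mem_span_singleton.1 hw
    have h1 : x - r • u = y := by rw [← hyw, add_sub_cancel_right]
    exact ⟨r, by rw [h1]; exact hy⟩
  obtain ⟨r0, hr0, _⟩ := hdec s0 s0 hLk0 hs0 hs0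
  let B : Finset S := (above c G).filter fun s => x - r0 • u ∈ zeros (c s)
  have hBall : B = above c G := by
    by_contra hne
    obtain ⟨i, hi, j, hj, hij⟩ := hLk B (Finset.filter_subset _ _)
      ⟨s0, Finset.mem_filter.2 ⟨(mem_above c G s0).2 hs0, hr0⟩⟩ hne
    have hi' := Finset.mem_filter.1 hi
    have hj' := Finset.mem_sdiff.1 hj
    obtain ⟨r, hr1, hr2⟩ := hdec i j hij ((mem_above c G i).1 hi'.1) ((mem_above c G j).1 hj'.1)
    have h1 : (r - r0) • u ∈ zeros (c i) := by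
      have h2 := Submodule.sub_mem _ hi'.2 hr1
      have h3 : x - r0 • u - (x - r • u) = (r - r0) • u := by
        rw [sub_smul]
        abel
      rwa [h3] at h2
    have h2 : r = r0 := by
      by_contra hrr
      have h3 := Submodule.smul_mem _ (r - r0)⁻¹ h1
      rw [smul_smul, inv_mul_cancel₀ (sub_ne_zero.2 hrr), one_smul] at h3
      exact hu1 i h3
    rw [h2] at hr2
    exact hj'.2 (Finset.mem_filter.2 ⟨hj'.1, hr2⟩)
  refine Submodule.mem_sup.2 ⟨x - r0 • u, hG.2 _ fun s hs => ?_, r0 • u,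
    Submodule.smul_mem _ _ (Submodule.mem_span_singleton_self u), sub_add_cancel _ _⟩
  have h1 : s ∈ B := by
    rw [hBall]
    exact (mem_above c G s).2 hs
  exact (Finset.mem_filter.1 h1).2

end Pool.Agent.R852.FP
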