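import Pool.Agent.R852.FP.Core

set_option autoImplicit false
set_option linter.unusedSectionVars false
set_option linter.unusedVariables false

/-! # The sets of exponents of Veronese type are linked -/

namespace Pool.Agent.R852.FP

variable {S : Type} [Fintype S] [DecidableEq S]

/-- The condition on one set of exponents. -/
def Tight (U : Finset (S → ℕ)) : Prop :=
  ∀ A : Finset S, 0 < minOn A U → ∀ B, B ⊆ A → B.Nonempty → B ≠ A →
    ∃ i ∈ B, ∃ j ∈ A \ B, ∃ m : S → ℕ, m + Pi.single i 1 ∈ U ∧ m + Pi.single j 1 ∈ U ∧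
      ∑ s ∈ A, (m + Pi.single i 1 : S → ℕ) s = minOn A U ∧
      ∑ s ∈ A, (m + Pi.single j 1 : S → ℕ) s = minOn A U

theorem sum_notin (A : Finset S) (m : S → ℕ) (i : S) (hi : i ∉ A) :
    ∑ s ∈ A, (m + Pi.single i 1 : S → ℕ) s = ∑ s ∈ A, m s := by
  simp only [Pi.add_apply]
  rw [Finset.sum_add_distrib]
  have h1 : ∑ s ∈ A, (Pi.single i 1 : S → ℕ) s = 0 := by
    refine Finset.sum_eq_zero fun s hs => ?_
    rw [Pi.single_eq_of_ne]
    rintro rfl
    exact hi hs
  rw [h1, add_zero]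

theorem sub_unit (u : S → ℕ) (i : S) (hi : 0 < u i) :
    (u - Pi.single i 1 : S → ℕ) + Pi.single i 1 = u := by
  funext s
  simp only [Pi.add_apply, Pi.sub_apply]
  by_cases h : s = i
  · subst h
    rw [Pi.single_eq_same]
    omega
  · rw [Pi.single_eq_of_ne h]
    omega

/-- the exchange -/
theorem swap_mem (d : S → ℕ) (k : ℕ) (u : S → ℕ) (hu : u ≤ d) (hk : ∑ s, u s = k) (i j : S)
    (hij : i ≠ j) (hi : 0 < u i) (hj : u j < d j) :
    (u - Pi.single i 1 : S → ℕ) + Pi.single j 1 ≤ d ∧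
      ∑ s, ((u - Pi.single i 1 : S → ℕ) + Pi.single j 1 : S → ℕ) s = k := by
  constructor
  · intro s
    simp only [Pi.add_apply, Pi.sub_apply]
    by_cases h : s = j
    · subst h
      rw [Pi.single_eq_same, Pi.single_eq_of_ne (Ne.symm hij)]
      omega
    · rw [Pi.single_eq_of_ne h]
      have h2 : u s ≤ d s := hu s
      omega
  · rw [sum_unit _ _ _ (Finset.mem_univ j), ← sum_unit _ _ i (Finset.mem_univ i), sub_unit u i hi]
    exact hk

theorem exists_sum (d : S → ℕ) : ∀ k, k ≤ ∑ s, d s → ∃ u, u ≤ d ∧ ∑ s, u s = k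
  | 0, _ => ⟨0, fun s => Nat.zero_le _, by simp⟩
  | k + 1, hk => by
    obtain ⟨u, hu, hs⟩ := exists_sum d k (by omega)
    obtain ⟨i, hi⟩ : ∃ i, u i < d i := by
      by_contra h
      push Not at h
      have := Finset.sum_le_sum fun s (_ : s ∈ Finset.univ) => h s
      omega
    refine ⟨u + Pi.single i 1, fun s => ?_, ?_⟩
    · simp only [Pi.add_apply]
      by_cases h : s = i
      · subst h
        rw [Pi.single_eq_same]
        omega
      · rw [Pi.single_eq_of_ne h]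
        exact hu s
    · rw [sum_unit _ _ _ (Finset.mem_univ i), hs]

theorem mem_type (d : S → ℕ) (k : ℕ) (u : S → ℕ) :
    u ∈ (Finset.Iic d).filter (fun u => ∑ s, u s = k) ↔ u ≤ d ∧ ∑ s, u s = k := by
  rw [Finset.mem_filter, Finset.mem_Iic]

theorem tight_type (d : S → ℕ) (k : ℕ) (hd : ∀ s, 0 < d s) (hk : k < ∑ s, d s) :
    Tight ((Finset.Iic d).filter fun u => ∑ s, u s = k) := by
  set U := (Finset.Iic d).filter fun u => ∑ s, u s = k with hU
  intro A hA B hB hB0 hBA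
  have hne : U.Nonempty := by
    obtain ⟨u, h1, h2⟩ := exists_sum d k hk.le
    exact ⟨u, (mem_type d k u).2 ⟨h1, h2⟩⟩
  obtain ⟨u, hu, hmin⟩ := exists_minOn A U hne
  obtain ⟨hud, huk⟩ := (mem_type d k u).1 hu
  obtain ⟨i0, hi0, hi0'⟩ : ∃ i ∈ A, 0 < u i := by
    by_contra h
    push Not at h
    have : ∑ s ∈ A, u s = 0 := Finset.sum_eq_zero fun s hs => Nat.le_zero.1 (h s hs)
    omega
  have hoff : ∀ j, j ∉ A → u j = d j := by
    intro j hj
    by_contra h
    have hj' : u j < d j := lt_of_le_of_ne (hud j) h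
    have hij : i0 ≠ j := fun h => hj (h ▸ hi0)
    have h1 := minOn_le A U ((mem_type d k _).2 (swap_mem d k u hud huk i0 j hij hi0' hj'))
    rw [sum_notin _ _ _ hj] at h1
    have h2 := sum_unit A (u - Pi.single i0 1) i0 hi0
    rw [sub_unit u i0 hi0'] at h2
    omega
  have key : ∀ i ∈ A, ∀ j ∈ A, i ≠ j → 0 < u i → u j < d j → ∃ m : S → ℕ,
      m + Pi.single i 1 ∈ U ∧ m + Pi.single j 1 ∈ U ∧
      ∑ s ∈ A, (m + Pi.single i 1 : S → ℕ) s = minOn A U ∧
      ∑ s ∈ A, (m + Pi.single j 1 : S → ℕ) s = minOn A U := by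
    intro i hi j hj hij hi' hj'
    refine ⟨u - Pi.single i 1, ?_, (mem_type d k _).2 (swap_mem d k u hud huk i j hij hi' hj'),
      ?_, ?_⟩
    · rw [sub_unit u i hi']
      exact hu
    · rw [sub_unit u i hi']
      exact hmin
    · rw [sum_unit _ _ _ hj, ← sum_unit _ _ i hi, sub_unit u i hi']
      exact hmin
  obtain ⟨b0, hb0⟩ := hB0
  obtain ⟨b1, hb1A, hb1⟩ : ∃ b ∈ A, b ∉ B := by
    by_contra h
    push Not at h
    exact hBA (Finset.Subset.antisymm hB h)
  by_contra hcon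
  have c1 : ∀ i ∈ B, ∀ j ∈ A \ B, 0 < u i → u j < d j → False := by
    intro i hi j hj hi' hj'
    have hj2 := Finset.mem_sdiff.1 hj
    obtain ⟨m, hm⟩ := key i (hB hi) j hj2.1 (fun h => hj2.2 (h ▸ hi)) hi' hj'
    exact hcon ⟨i, hi, j, hj, m, hm⟩
  have c2 : ∀ i ∈ B, ∀ j ∈ A \ B, 0 < u j → u i < d i → False := by
    intro i hi j hj hj' hi'
    have hj2 := Finset.mem_sdiff.1 hj
    obtain ⟨m, hm1, hm2, hm3, hm4⟩ := key j hj2.1 i (hB hi) (fun h => hj2.2 (h ▸ hi)) hj' hi'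
    exact hcon ⟨i, hi, j, hj, m, hm2, hm1, hm4, hm3⟩
  have hb1' : b1 ∈ A \ B := Finset.mem_sdiff.2 ⟨hb1A, hb1⟩
  -- either `u = 0` on `B` or `u = d` on the complement
  by_cases h1 : ∃ i ∈ B, 0 < u i
  · obtain ⟨i, hi, hi'⟩ := h1
    have h2 : ∀ j ∈ A \ B, u j = d j := fun j hj => by
      by_contra h
      exact c1 i hi j hj hi' (lt_of_le_of_ne (hud j) h)
    have h3 : ∀ j ∈ B, u j = d j := fun j hj => by
      by_contra h
      exact c2 j hj b1 hb1' (by rw [h2 b1 hb1']; exact hd b1) (lt_of_le_of_ne (hud j) h)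
    have h4 : ∑ s, u s = ∑ s, d s := by
      refine Finset.sum_congr rfl fun s _ => ?_
      by_cases hs : s ∈ B
      · exact h3 s hs
      · by_cases hs' : s ∈ A
        · exact h2 s (Finset.mem_sdiff.2 ⟨hs', hs⟩)
        · exact hoff s hs'
    omega
  · push Not at h1
    have h2 : i0 ∈ A \ B := Finset.mem_sdiff.2 ⟨hi0, fun h => by have := h1 i0 h; omega⟩
    have h3 := h1 b0 hb0
    exact c2 b0 hb0 i0 h2 hi0' (by have := hd b0; omega)

theorem minOn_add (A : Finset S) (U V : Finset (S → ℕ)) (hU : U.Nonempty) (hV : V.Nonempty) :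
    minOn A (Finset.image (fun p => p.1 + p.2) (U ×ˢ V)) = minOn A U + minOn A V := by
  obtain ⟨u, hu, hu'⟩ := exists_minOn A U hU
  obtain ⟨v, hv, hv'⟩ := exists_minOn A V hV
  apply le_antisymm
  · have h1 : u + v ∈ Finset.image (fun p => p.1 + p.2) (U ×ˢ V) :=
      Finset.mem_image.2 ⟨(u, v), Finset.mem_product.2 ⟨hu, hv⟩, rfl⟩
    have h2 := minOn_le A _ h1
    simp only [Pi.add_apply, Finset.sum_add_distrib] at h2
    omega
  · obtain ⟨w, hw, hw'⟩ := exists_minOn A (Finset.image (fun p => p.1 + p.2) (U ×ˢ V))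
      ⟨u + v, Finset.mem_image.2 ⟨(u, v), Finset.mem_product.2 ⟨hu, hv⟩, rfl⟩⟩
    obtain ⟨⟨x, y⟩, hxy, rfl⟩ := Finset.mem_image.1 hw
    obtain ⟨hx, hy⟩ := Finset.mem_product.1 hxy
    rw [← hw']
    simp only [Pi.add_apply, Finset.sum_add_distrib]
    exact Nat.add_le_add (minOn_le A U hx) (minOn_le A V hy)

theorem IsVeronese.nonempty {U : Finset (S → ℕ)} (h : IsVeronese U) : U.Nonempty := by
  induction h with
  | type d k hd hk =>
    obtain ⟨u, h1, h2⟩ := exists_sum d k hk.le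
    exact ⟨u, (mem_type d k u).2 ⟨h1, h2⟩⟩
  | add U V hU hV h1 h2 =>
    obtain ⟨u, hu⟩ := h1
    obtain ⟨v, hv⟩ := h2
    exact ⟨u + v, Finset.mem_image.2 ⟨(u, v), Finset.mem_product.2 ⟨hu, hv⟩, rfl⟩⟩

theorem IsVeronese.tight {U : Finset (S → ℕ)} (h : IsVeronese U) : Tight U := by
  induction h with
  | type d k hd hk => exact tight_type d k hd hk
  | add U V hU hV h1 h2 =>
    intro A hA B hB hB0 hBA
    rw [minOn_add A U V hU.nonempty hV.nonempty] at hA ⊢
    have key : ∀ (x y : S → ℕ) (i : S), x + y + Pi.single i 1 = x + Pi.single i 1 + y := by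
      intro x y i
      rw [add_assoc, add_comm y, ← add_assoc]
    have hsum : ∀ (x y : S → ℕ), ∑ s ∈ A, (x + y) s = ∑ s ∈ A, x s + ∑ s ∈ A, y s := by
      intro x y
      simp only [Pi.add_apply, Finset.sum_add_distrib]
    by_cases hU0 : 0 < minOn A U
    · obtain ⟨i, hi, j, hj, m, m1, m2, m3, m4⟩ := h1 A hU0 B hB hB0 hBA
      obtain ⟨v, hv, hv'⟩ := exists_minOn A V hV.nonempty
      refine ⟨i, hi, j, hj, m + v, ?_, ?_, ?_, ?_⟩
      · rw [key]
        exact Finset.mem_image.2 ⟨(_, v), Finset.mem_product.2 ⟨m1, hv⟩, rfl⟩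
      · rw [key]
        exact Finset.mem_image.2 ⟨(_, v), Finset.mem_product.2 ⟨m2, hv⟩, rfl⟩
      · rw [key, hsum, m3, hv']
      · rw [key, hsum, m4, hv']
    · obtain ⟨i, hi, j, hj, m, m1, m2, m3, m4⟩ := h2 A (by omega) B hB hB0 hBA
      obtain ⟨u, hu, hu'⟩ := exists_minOn A U hU.nonempty
      refine ⟨i, hi, j, hj, u + m, ?_, ?_, ?_, ?_⟩
      · rw [add_assoc]
        exact Finset.mem_image.2 ⟨(u, _), Finset.mem_product.2 ⟨hu, m1⟩, rfl⟩
      · rw [add_assoc]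
        exact Finset.mem_image.2 ⟨(u, _), Finset.mem_product.2 ⟨hu, m2⟩, rfl⟩
      · rw [add_assoc, hsum, m3, hu']
      · rw [add_assoc, hsum, m4, hu']

theorem isLinked_of_veronese {T : Type} [Fintype T] (U : T → Finset (S → ℕ)) (a : T → ℕ)
    (hU : ∀ t, a t ≠ 0 → IsVeronese (U t)) (A : Finset S)
    (hN : 0 < ∑ t, a t * minOn A (U t)) : IsLinked U a A := by
  intro B hB hB0 hBA
  obtain ⟨t, _, ht⟩ := Finset.exists_ne_zero_of_sum_ne_zero (Nat.pos_iff_ne_zero.1 hN)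
  obtain ⟨i, hi, j, hj, m, hm⟩ := (hU t (left_ne_zero_of_mul ht)).tight A
    (Nat.pos_of_ne_zero (right_ne_zero_of_mul ht)) B hB hB0 hBA
  exact ⟨i, hi, j, hj, t, left_ne_zero_of_mul ht, m, hm⟩

end Pool.Agent.R852.FP
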