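import Pool.Agent.TH187.SA.Classes

set_option autoImplicit false

/-! # Forms over polymatroidal ideals of linear subspaces -/

namespace Pool.Agent.R852.FP

open MvPolynomial Pool.Agent.TH187.SA Pool.Agent.TH192.DT

/-- The products of linear forms, `u s` of them from the family of index `s`, for the `u ∈ U`:
generators of the ideal `∑ u ∈ U, ∏ s, I(L s) ^ u s`, where `I(L s)` is the ideal of the subspace
`L s = zeros (c s)`. -/
noncomputable def polyGen {σ S : Type} [Fintype σ] [DecidableEq σ] [Fintype S] [DecidableEq S]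
    {κ : S → Type} (c : (s : S) → κ s → σ → ℂ) (U : Finset (S → ℕ))
    (q : Σ u : U, ((p : Σ s, Fin (u.1 s)) → κ p.1)) : MvPolynomial σ ℂ :=
  ∏ p, lin (c p.1 (q.2 p))

/-- The set of the `s` with `G ⊆ L s`. -/
noncomputable def above {σ S : Type} [Fintype σ] [Fintype S] {κ : S → Type}
    (c : (s : S) → κ s → σ → ℂ) (G : Submodule ℂ (σ → ℂ)) : Finset S :=
  open Classical in Finset.univ.filter fun s => G ≤ zeros (c s)

/-- The minimum of the numbers `∑ s ∈ A, u s`, `u ∈ U`. -/
noncomputable def minOn {S : Type} (A : Finset S) (U : Finset (S → ℕ)) : ℕ :=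
  sInf {n | ∃ u ∈ U, n = ∑ s ∈ A, u s}

/-- The multiplicities of `∏ t, F_t ^ a t`, where `F_t` is a form over
`∑ u ∈ U t, ∏ s, I(L s) ^ u s`: `N_G = ∑ t, a t min (∑ u s)`, the minimum over the `u ∈ U t`, the inner
sum over the `s` with `G ⊆ L s`, and `a t` along the strict transform of `F_t = 0`. -/
noncomputable def mulP {σ S I T : Type} [Fintype σ] [Fintype S] [Fintype T] {κ : S → Type}
    (c : (s : S) → κ s → σ → ℂ) (U : T → Finset (S → ℕ)) (a : T → ℕ)
    (G : I → Submodule ℂ (σ → ℂ)) : I ⊕ T → ℕ :=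
  Sum.elim (fun i => ∑ t, a t * minOn (above c (G i)) (U t)) a

/-- `G` is a flat of the subspaces `L s`: it is not the whole space, and it is the intersection of
the `L s` which contain it. -/
def IsFlat {σ S : Type} [Fintype σ] {κ : S → Type} (c : (s : S) → κ s → σ → ℂ)
    (G : Submodule ℂ (σ → ℂ)) : Prop :=
  G ≠ ⊤ ∧ ∀ w, (∀ s, G ≤ zeros (c s) → w ∈ zeros (c s)) → w ∈ G

/-- The indices `i`, `j` are linked: some `U t`, with `a t ≠ 0`, contains two elements `m + e_i` and
`m + e_j`, `e_i` and `e_j` the unit vectors, on which the sum over `A` has its minimum on `U t`. -/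
def Linked {S T : Type} [DecidableEq S] (U : T → Finset (S → ℕ)) (a : T → ℕ) (A : Finset S)
    (i j : S) : Prop :=
  ∃ t, a t ≠ 0 ∧ ∃ m : S → ℕ, m + Pi.single i 1 ∈ U t ∧ m + Pi.single j 1 ∈ U t ∧
    ∑ s ∈ A, (m + Pi.single i 1 : S → ℕ) s = minOn A (U t) ∧
    ∑ s ∈ A, (m + Pi.single j 1 : S → ℕ) s = minOn A (U t)

/-- The indices in `A` are linked: for each decomposition of `A` into two non-empty parts there are
linked indices in the different parts. -/
def IsLinked {S T : Type} [DecidableEq S] (U : T → Finset (S → ℕ)) (a : T → ℕ) (A : Finset S) :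
    Prop :=
  ∀ B, B ⊆ A → B.Nonempty → B ≠ A → ∃ i ∈ B, ∃ j ∈ A \ B, Linked U a A i j

/-- `G` is a Rees flat of `∏ t, (∑ u ∈ U t, ∏ s, I(L s) ^ u s) ^ a t`: it is not the whole space, and
if the multiplicity along the divisor over `G` is not `0`, there is a vector `v` which is contained
in none of the `L s ⊇ G`, such that the intersection of the subspaces `(L i ∩ L j) + ℂ v`, over the
linked `i`, `j` with `G ⊆ L i ∩ L j`, is contained in `G + ℂ v`. -/
def IsReesP {σ S T : Type} [Fintype σ] [Fintype S] [DecidableEq S] [Fintype T] {κ : S → Type}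
    (c : (s : S) → κ s → σ → ℂ) (U : T → Finset (S → ℕ)) (a : T → ℕ)
    (G : Submodule ℂ (σ → ℂ)) : Prop :=
  G ≠ ⊤ ∧ (0 < ∑ t, a t * minOn (above c G) (U t) →
    ∃ v : σ → ℂ, (∀ s, G ≤ zeros (c s) → v ∉ zeros (c s)) ∧
      ∀ x : σ → ℂ, (∀ i j, Linked U a (above c G) i j → G ≤ zeros (c i) → G ≤ zeros (c j) →
        x ∈ (zeros (c i) ⊓ zeros (c j)) ⊔ Submodule.span ℂ {v}) →
          x ∈ G ⊔ Submodule.span ℂ {v})

/-- The sets of exponents of Veronese type `{u | u s ≤ d s, ∑ s, u s = k}`, where `0 < d s` and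
`k < ∑ s, d s`, and their sums. -/
inductive IsVeronese {S : Type} [Fintype S] [DecidableEq S] : Finset (S → ℕ) → Prop
  | type (d : S → ℕ) (k : ℕ) (hd : ∀ s, 0 < d s) (hk : k < ∑ s, d s) :
      IsVeronese ((Finset.Iic d).filter fun u => ∑ s, u s = k)
  | add (U V : Finset (S → ℕ)) (hU : IsVeronese U) (hV : IsVeronese V) :
      IsVeronese (Finset.image (fun p => p.1 + p.2) (U ×ˢ V))

end Pool.Agent.R852.FP
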